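import Mathlib
import Pool.Agent.T9h59.SR.Tri

/-!
Piece (T1): the sum of `(e / ℓ) log ℓ` over the primes `ℓ` dividing `e`.
-/

set_option autoImplicit false

namespace Pool.Agent.T9h93.SR

open Finset

/-- the product of `s / (s - 1)` over a set of odd numbers `≥ 3` -/
theorem odd_prod : ∀ S : Finset ℕ, (∀ s ∈ S, 3 ≤ s ∧ s % 2 = 1) →
    (∏ s ∈ S, (s : ℝ) / ((s : ℝ) - 1)) ^ 2 ≤ 2 * (#S : ℝ) + 1 := by
  intro S
  induction S using Finset.induction_on_max with
  | empty => intro _; simp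
  | insert a S hmax ih =>
    intro hS
    have haS : a ∉ S := fun h => lt_irrefl _ (hmax a h)
    have hS' : ∀ s ∈ S, 3 ≤ s ∧ s % 2 = 1 := fun s hs => hS s (mem_insert_of_mem hs)
    have ha := hS a (mem_insert_self _ _)
    have ih' := ih hS'
    have hcard : #S ≤ #(Ico 1 (a / 2)) := by
      refine card_le_card_of_injOn (fun s => s / 2) ?_ ?_
      · intro s hs
        have h1 := hS' s hs
        have h2 := hmax s hs
        simp only [coe_Ico, Set.mem_Ico]
        omega
      · intro s hs t ht hst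
        have h1 := hS' s hs
        have h2 := hS' t ht
        simp only at hst
        omega
    rw [Nat.card_Ico] at hcard
    have ha2 : 2 * #S + 3 ≤ a := by omega
    have ha3 : 2 * (#S : ℝ) + 3 ≤ (a : ℝ) := by exact_mod_cast ha2
    rw [prod_insert haS, card_insert_of_notMem haS, mul_pow]
    push_cast
    have hn : (0 : ℝ) ≤ (#S : ℝ) := Nat.cast_nonneg _
    have hpos : (0 : ℝ) < (a : ℝ) - 1 := by linarith
    have key : ((a : ℝ) / ((a : ℝ) - 1)) ^ 2 * (2 * (#S : ℝ) + 1) ≤ 2 * ((#S : ℝ) + 1) + 1 := by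
      rw [div_pow, div_mul_eq_mul_div, div_le_iff₀ (by positivity)]
      nlinarith [mul_nonneg (by linarith : (0 : ℝ) ≤ (a : ℝ)) (by linarith : (0 : ℝ) ≤ (a : ℝ) - (2 * (#S : ℝ) + 3))]
    exact le_trans (mul_le_mul_of_nonneg_left ih' (by positivity)) key

/-- `e / φ(e)` -/
theorem ratio (e : ℕ) : (e : ℝ) ≤ (Nat.totient e : ℝ) * (2 * Real.sqrt (2 * (#e.primeFactors : ℝ) + 1)) := by
  have h1 : (e : ℝ) = (Nat.totient e : ℝ) * ∏ l ∈ e.primeFactors, ((l : ℝ) / ((l : ℝ) - 1)) := by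
    have h2 := Nat.totient_mul_prod_primeFactors e
    have h3 : ((Nat.totient e : ℕ) : ℝ) * ∏ l ∈ e.primeFactors, (l : ℝ) =
        (e : ℝ) * ∏ l ∈ e.primeFactors, ((l : ℝ) - 1) := by
      have h4 : ((Nat.totient e * ∏ l ∈ e.primeFactors, l : ℕ) : ℝ) =
        ((e * ∏ l ∈ e.primeFactors, (l - 1) : ℕ) : ℝ) := by exact_mod_cast h2
      push_cast at h4
      rw [h4]
      congr 1
      refine prod_congr rfl fun l hl => ?_
      rw [Nat.cast_sub (Nat.prime_of_mem_primeFactors hl).one_lt.le, Nat.cast_one]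
    rw [prod_div_distrib, mul_div_assoc', h3, mul_div_assoc, div_self, mul_one]
    refine prod_ne_zero_iff.2 fun l hl => ?_
    have := (Nat.prime_of_mem_primeFactors hl).one_lt
    have h5 : (1 : ℝ) < (l : ℝ) := by exact_mod_cast this
    linarith
  rw [h1]
  refine le_trans ?_ (mul_le_mul_of_nonneg_left ?_ (Nat.cast_nonneg _)) (b := (Nat.totient e : ℝ) * ∏ l ∈ e.primeFactors, ((l : ℝ) / ((l : ℝ) - 1)))
  · rfl
  have hfac : ∀ l ∈ e.primeFactors, (0 : ℝ) ≤ (l : ℝ) / ((l : ℝ) - 1) := by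
    intro l hl
    have := (Nat.prime_of_mem_primeFactors hl).one_lt
    have h5 : (1 : ℝ) < (l : ℝ) := by exact_mod_cast this
    exact div_nonneg (by linarith) (by linarith)
  have h6 : ∏ l ∈ e.primeFactors, ((l : ℝ) / ((l : ℝ) - 1)) ≤
      2 * ∏ l ∈ e.primeFactors.erase 2, ((l : ℝ) / ((l : ℝ) - 1)) := by
    have hnn : (0 : ℝ) ≤ ∏ l ∈ e.primeFactors.erase 2, ((l : ℝ) / ((l : ℝ) - 1)) :=
      prod_nonneg fun l hl => hfac l (mem_of_mem_erase hl)
    by_cases h2 : 2 ∈ e.primeFactors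
    · rw [← mul_prod_erase _ _ h2]
      norm_num
    · rw [erase_eq_of_notMem h2]
      rw [erase_eq_of_notMem h2] at hnn
      linarith
  refine le_trans h6 (mul_le_mul_of_nonneg_left ?_ (by norm_num))
  refine Real.le_sqrt_of_sq_le ?_
  refine le_trans (odd_prod _ ?_) ?_
  · intro s hs
    have h7 := Nat.prime_of_mem_primeFactors (mem_of_mem_erase hs)
    have h8 := ne_of_mem_erase hs
    rcases h7.eq_two_or_odd with h | h
    · exact absurd h h8
    · exact ⟨by have := h7.two_le; omega, h⟩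
  · have h9 : #(e.primeFactors.erase 2) ≤ #e.primeFactors := card_le_card (erase_subset _ _)
    have h10 : (#(e.primeFactors.erase 2) : ℝ) ≤ (#e.primeFactors : ℝ) := by exact_mod_cast h9
    linarith

theorem sum_log_le (e : ℕ) (he : 1 ≤ e) : ∑ l ∈ e.primeFactors, Real.log l ≤ Real.log e := by
  have h1 : ∑ l ∈ e.primeFactors, Real.log (l : ℝ) = Real.log ((∏ l ∈ e.primeFactors, l : ℕ) : ℝ) := by
    rw [Nat.cast_prod, Real.log_prod]
    intro l hl
    have := (Nat.prime_of_mem_primeFactors hl).pos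
    exact_mod_cast this.ne'
  rw [h1]
  refine Real.log_le_log ?_ ?_
  · exact_mod_cast Finset.prod_pos fun l hl => (Nat.prime_of_mem_primeFactors hl).pos
  · exact_mod_cast Nat.le_of_dvd he (Nat.prod_primeFactors_dvd e)

theorem card_le (e : ℕ) (he : 1 ≤ e) : (#e.primeFactors : ℝ) ≤ 2 * Real.log e := by
  have h1 := sum_log_le e he
  have h2 : (#e.primeFactors : ℝ) * Real.log 2 ≤ ∑ l ∈ e.primeFactors, Real.log l := by
    rw [← nsmul_eq_mul]
    refine card_nsmul_le_sum _ _ _ fun l hl => ?_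
    have := (Nat.prime_of_mem_primeFactors hl).two_le
    exact Real.log_le_log (by norm_num) (by exact_mod_cast this)
  have h3 : (1 : ℝ) / 2 ≤ Real.log 2 := by
    have := Real.log_two_gt_d9
    linarith
  have h4 : (0 : ℝ) ≤ (#e.primeFactors : ℝ) := Nat.cast_nonneg _
  nlinarith [mul_le_mul_of_nonneg_left h3 h4]

theorem sum_log_div (e : ℕ) (he : 1 ≤ e) (y : ℕ) (hy : 1 ≤ y) :
    ∑ l ∈ e.primeFactors, Real.log l / l ≤ Real.log e / y + Real.log y * (1 + Real.log y) := by
  have hy0 : (0 : ℝ) < (y : ℝ) := by exact_mod_cast hy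
  have hly : 0 ≤ Real.log (y : ℝ) := Real.log_natCast_nonneg y
  have h1 : ∑ l ∈ e.primeFactors, Real.log (l : ℝ) / l ≤ ∑ l ∈ e.primeFactors,
      (Real.log (l : ℝ) / y + if l ≤ y then Real.log (y : ℝ) * (l : ℝ)⁻¹ else 0) := by
    refine sum_le_sum fun l hl => ?_
    have hl1 := (Nat.prime_of_mem_primeFactors hl).one_lt
    have hl0 : (0 : ℝ) < (l : ℝ) := by
      have := (Nat.prime_of_mem_primeFactors hl).pos
      exact_mod_cast this
    have hll : 0 ≤ Real.log (l : ℝ) := Real.log_natCast_nonneg l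
    split_ifs with h
    · have h2 : Real.log (l : ℝ) ≤ Real.log (y : ℝ) := Real.log_le_log hl0 (by exact_mod_cast h)
      have h3 : Real.log (l : ℝ) / l ≤ Real.log (y : ℝ) * (l : ℝ)⁻¹ := by
        rw [div_eq_mul_inv]
        exact mul_le_mul_of_nonneg_right h2 (by positivity)
      have h4 : 0 ≤ Real.log (l : ℝ) / y := by positivity
      linarith
    · rw [add_zero]
      refine div_le_div_of_nonneg_left hll hy0 ?_
      have : y ≤ l := by omega
      exact_mod_cast this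
  refine h1.trans ?_
  rw [sum_add_distrib, ← sum_div]
  refine add_le_add (div_le_div_of_nonneg_right (sum_log_le e he) hy0.le) ?_
  rw [← sum_filter, ← mul_sum]
  refine mul_le_mul_of_nonneg_left ?_ hly
  have h5 : ∑ l ∈ e.primeFactors.filter (fun l => l ≤ y), (l : ℝ)⁻¹ ≤ ∑ l ∈ Icc 1 y, (l : ℝ)⁻¹ := by
    refine sum_le_sum_of_subset_of_nonneg ?_ ?_
    · intro l hl
      rw [mem_filter] at hl
      rw [mem_Icc]
      exact ⟨(Nat.prime_of_mem_primeFactors hl.1).pos, hl.2⟩
    · intro l _ _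
      positivity
  refine h5.trans ?_
  have h6 := harmonic_le_one_add_log y
  rw [harmonic_eq_sum_Icc] at h6
  push_cast at h6
  exact h6

theorem log_le8 (x : ℝ) (hx : 1 ≤ x) : Real.log x ≤ 8 * x ^ ((1 : ℝ) / 8) := by
  have := Real.log_le_rpow_div (by linarith : (0 : ℝ) ≤ x) (by norm_num : (0 : ℝ) < 1 / 8)
  linarith

/-- (T1) -/
theorem stT1 : Pool.Agent.T9h59.SR.StT1 := by
  intro δ hδ
  set C : ℝ := 438 with hC
  refine ⟨δ + C * (C / δ) ^ 3, fun e he => ?_⟩
  have hL : 0 ≤ Real.log (e : ℝ) := Real.log_natCast_nonneg e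
  set L := Real.log (e : ℝ) with hLdef
  set u : ℝ := (1 + L) ^ ((1 : ℝ) / 8) with hu
  have hu1 : 1 ≤ u := Real.one_le_rpow (by linarith) (by norm_num)
  have hu8 : u ^ 8 = 1 + L := by
    rw [hu, ← Real.rpow_natCast, ← Real.rpow_mul (by linarith)]
    norm_num
  set y : ℕ := ⌊L⌋₊ + 1 with hy
  have hy1 : 1 ≤ y := by omega
  have hyL : L < (y : ℝ) := by
    rw [hy]
    push_cast
    exact Nat.lt_floor_add_one L
  have hyL2 : (y : ℝ) ≤ 1 + L := by
    rw [hy]
    push_cast
    have := Nat.floor_le hL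
    linarith
  have hy0 : (0 : ℝ) < (y : ℝ) := by linarith
  have hly : Real.log (y : ℝ) ≤ 8 * u := by
    refine le_trans (Real.log_le_log hy0 hyL2) ?_
    exact log_le8 (1 + L) (by linarith)
  have hly0 : 0 ≤ Real.log (y : ℝ) := Real.log_natCast_nonneg y
  have hS := sum_log_div e he y hy1
  have hS2 : ∑ l ∈ e.primeFactors, Real.log l / l ≤ 73 * u ^ 2 := by
    refine hS.trans ?_
    have h1 : L / y ≤ 1 := by
      rw [div_le_one hy0]
      exact hyL.le
    have h2 : Real.log (y : ℝ) * (1 + Real.log y) ≤ 8 * u * (1 + 8 * u) :=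
      mul_le_mul hly (by linarith) (by linarith) (by linarith)
    nlinarith
  have hcard := card_le e he
  have hD : Real.sqrt (2 * (#e.primeFactors : ℝ) + 1) ≤ 2 * u ^ 4 := by
    refine Real.sqrt_le_iff.2 ⟨by positivity, ?_⟩
    have h1 : (2 * u ^ 4) ^ 2 = 4 * (1 + L) := by
      rw [← hu8]
      ring
    rw [h1]
    linarith
  have hE := ratio e
  have hphi : (0 : ℝ) ≤ (Nat.totient e : ℝ) := Nat.cast_nonneg _
  have h1 : ∑ l ∈ e.primeFactors, ((e / l : ℕ) : ℝ) * Real.log l ≤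
      (e : ℝ) * ∑ l ∈ e.primeFactors, Real.log l / l := by
    rw [mul_sum]
    refine sum_le_sum fun l hl => ?_
    have h2 : ((e / l : ℕ) : ℝ) ≤ (e : ℝ) / (l : ℝ) := Nat.cast_div_le
    calc ((e / l : ℕ) : ℝ) * Real.log l ≤ (e : ℝ) / (l : ℝ) * Real.log l :=
          mul_le_mul_of_nonneg_right h2 (Real.log_natCast_nonneg l)
      _ = (e : ℝ) * (Real.log l / l) := by ring
  refine h1.trans ?_
  have hSnn : (0 : ℝ) ≤ ∑ l ∈ e.primeFactors, Real.log (l : ℝ) / l := by
    refine sum_nonneg fun l _ => div_nonneg (Real.log_natCast_nonneg l) (Nat.cast_nonneg _)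
  have h3 : (e : ℝ) ≤ (Nat.totient e : ℝ) * (4 * u ^ 4) := by
    refine hE.trans (mul_le_mul_of_nonneg_left ?_ hphi)
    linarith
  calc (e : ℝ) * ∑ l ∈ e.primeFactors, Real.log (l : ℝ) / l
      ≤ ((Nat.totient e : ℝ) * (4 * u ^ 4)) * (73 * u ^ 2) :=
        mul_le_mul h3 hS2 hSnn (by positivity)
    _ = (Nat.totient e : ℝ) * (292 * u ^ 6) := by ring
    _ ≤ (Nat.totient e : ℝ) * (δ * L + (δ + C * (C / δ) ^ 3)) := by
        refine mul_le_mul_of_nonneg_left ?_ hphi
        have h4 : δ * L + (δ + C * (C / δ) ^ 3) = δ * u ^ 8 + C * (C / δ) ^ 3 := by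
          rw [hu8]
          ring
        rw [h4]
        have h5 : 292 * u ^ 6 ≤ C * u ^ 6 := by
          rw [hC]
          have : 0 ≤ u ^ 6 := by positivity
          linarith
        refine h5.trans ?_
        have hCpos : (0 : ℝ) < C := by rw [hC]; norm_num
        rcases le_total (C / δ) (u ^ 2) with h6 | h6
        · have h7 : C ≤ δ * u ^ 2 := by
            rw [div_le_iff₀ hδ] at h6
            linarith
          have h8 : C * u ^ 6 ≤ (δ * u ^ 2) * u ^ 6 := mul_le_mul_of_nonneg_right h7 (by positivity)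
          have h9 : 0 ≤ C * (C / δ) ^ 3 := by positivity
          calc C * u ^ 6 ≤ (δ * u ^ 2) * u ^ 6 := h8
            _ = δ * u ^ 8 := by ring
            _ ≤ δ * u ^ 8 + C * (C / δ) ^ 3 := by linarith
        · have h7 : (u ^ 2) ^ 3 ≤ (C / δ) ^ 3 := pow_le_pow_left₀ (by positivity) h6 3
          have h8 : C * u ^ 6 ≤ C * (C / δ) ^ 3 := by
            refine mul_le_mul_of_nonneg_left ?_ hCpos.le
            calc u ^ 6 = (u ^ 2) ^ 3 := by ring
              _ ≤ (C / δ) ^ 3 := h7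
          have h9 : 0 ≤ δ * u ^ 8 := by positivity
          linarith

end Pool.Agent.T9h93.SR
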